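import Pool.Agent.J4H13.LC.Jobs2
import Pool.Agent.J4H13.BC.Machine

/-!
# Project LC (helper13), job MOVE
-/

set_option autoImplicit false
set_option linter.all false

open MvPolynomial FF

namespace Pool.Agent.J4H42.LC

open Pool.Agent.J4H13.LC Pool.Agent.J4H13.BC Pool.Agent.Helper397.HK

open scoped Classical in
theorem t_MOVE : S_MOVE := by
  intro K _ _ G _ _ r hr1 N ξ hξ hcon
  obtain ⟨B, hB, hBfg, hcon⟩ := hcon
  obtain ⟨Y, hY⟩ : ∃ Y : ProjVar N, Y = locus ξ hξ := ⟨_, rfl⟩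
  rw [← hY]
  have hYmem : ∀ F, F ∈ Y.I ↔ coneHom ξ F = 0 := by
    intro F
    rw [hY]
    rfl
  have hξY : Y.OnCone ξ := by
    rw [hY]
    exact (mem_pts_locus ξ hξ).2
  have hBξ : ∀ i, ξ i ∈ B := by
    intro i
    have := hB 1 i
    rwa [hr1] at this
  have hAft : Algebra.FiniteType ℂ B := by
    rw [← Subalgebra.fg_iff_finiteType]
    exact hBfg
  let η : Fin (N + 1) → B := fun i => ⟨ξ i, hBξ i⟩
  have hη : Y.OnCone η := ProjVar.OnCone.of_injective B.val Subtype.val_injective hξY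
  obtain ⟨i₀, hi₀⟩ := Function.ne_iff.1 hξ
  have hησ : ∀ σ : G, Y.OnCone (fun i => (⟨r σ (ξ i), hB σ i⟩ : B)) := by
    intro σ
    apply ProjVar.OnCone.of_injective B.val Subtype.val_injective
    exact hξY.map (r σ : K →ₐ[ℂ] K)
  obtain ⟨h₀, hh₀⟩ : ∃ h₀ : B, h₀ = ∏ σ : G, (⟨r σ (ξ i₀), hB σ i₀⟩ : B) := ⟨_, rfl⟩
  have hh₀0 : h₀ ≠ 0 := by
    rw [hh₀]
    refine Finset.prod_ne_zero_iff.2 fun σ _ h1 => ?_
    have h2 : r σ (ξ i₀) = 0 := congrArg Subtype.val h1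
    exact hi₀ ((map_eq_zero_iff (r σ) (r σ).injective).1 h2)
  have hgoodη : ∀ φ : B →ₐ[ℂ] ℂ, φ h₀ ≠ 0 → ∀ σ : G,
      (fun i => φ ⟨r σ (ξ i), hB σ i⟩) ∈ Y.Pts ℂ := by
    intro φ hφ σ
    refine ⟨fun h1 => ?_, (hησ σ).map φ⟩
    have h2 : φ ⟨r σ (ξ i₀), hB σ i₀⟩ = 0 := congrFun h1 i₀
    apply hφ
    rw [hh₀, map_prod φ (fun σ : G => (⟨r σ (ξ i₀), hB σ i₀⟩ : B)),
      Finset.prod_eq_zero (Finset.mem_univ σ) h2]
  have hone : ∀ φ : B →ₐ[ℂ] ℂ, (fun i => φ ⟨r 1 (ξ i), hB 1 i⟩) = fun i => φ (η i) := by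
    intro φ
    funext i
    congr 1
    exact Subtype.ext (hr1 (ξ i))
  have hmem : ∀ φ : B →ₐ[ℂ] ℂ, φ h₀ ≠ 0 → (fun i => φ (η i)) ∈ Y.Pts ℂ := by
    intro φ hφ
    have := hgoodη φ hφ 1
    rwa [hone] at this
  -- good points are rationally equivalent
  have hgood : ∀ φ φ' : B →ₐ[ℂ] ℂ, φ h₀ ≠ 0 → φ' h₀ ≠ 0 → hc Y η φ = hc Y η φ' := by
    have hval : ∀ (φ : B →ₐ[ℂ] ℂ) (hφ : φ h₀ ≠ 0),
        ∑ σ : G, (if σ = 1 then (1 : ℚ) else 0) •
          cls (⟨fun i => φ ⟨r σ (ξ i), hB σ i⟩, hgoodη φ hφ σ⟩ : Y.Pts ℂ) = hc Y η φ := by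
      intro φ hφ
      rw [Finset.sum_eq_single (1 : G)]
      · rw [if_pos rfl, one_smul]
        obtain ⟨h1, h2⟩ := hasCls_hc (η := η) (φ := φ) (hmem φ hφ)
        rw [← h2]
        congr 1
        exact Subtype.ext (hone φ)
      · intro σ _ hσ
        rw [if_neg hσ, zero_smul]
      · intro h3
        exact absurd (Finset.mem_univ _) h3
    intro φ φ' hφ hφ'
    rw [← hval φ hφ, ← hval φ' hφ']
    exact hcon Y hξY φ φ' _ _ (fun σ i => rfl) (fun σ i => rfl)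
  obtain ⟨φ₀, hφ₀⟩ : ∃ φ₀ : B →ₐ[ℂ] ℂ, φ₀ h₀ ≠ 0 := by
    obtain ⟨z, hz, hext⟩ := generic_ext (Algebra.ofId ℂ B) (algebraMap ℂ B).injective h₀ hh₀0
    obtain ⟨l, -, hl⟩ := hext (AlgHom.id ℂ ℂ) hz
    exact ⟨l, hl⟩
  -- moving
  let j₀ : MvPolynomial (Fin (N + 1)) ℂ →ₐ[ℂ] Polynomial B :=
    aeval (fun i => Polynomial.X * Polynomial.C (η i))
  let μ : Polynomial B →ₐ[ℂ] Polynomial K := Polynomial.mapAlgHom B.val
  have hμ : Function.Injective μ := Polynomial.map_injective _ Subtype.val_injective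
  have hμj : ∀ F, μ (j₀ F) = coneHom ξ F := by
    intro F
    have h1 : μ.comp j₀ = coneHom ξ := MvPolynomial.algHom_ext fun i => by
      change μ (aeval _ (X i)) = aeval _ (X i)
      rw [aeval_X, aeval_X]
      change Polynomial.map _ _ = _
      rw [Polynomial.map_mul, Polynomial.map_X, Polynomial.map_C]
      rfl
    rw [← h1]
    rfl
  have hker : ∀ F, j₀ F = 0 ↔ F ∈ Y.I := by
    intro F
    rw [hYmem, ← hμj, map_eq_zero_iff μ hμ]
  let j : (MvPolynomial (Fin (N + 1)) ℂ ⧸ Y.I) →ₐ[ℂ] Polynomial B :=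
    Ideal.Quotient.liftₐ Y.I j₀ (fun F hF => (hker F).2 hF)
  have hjmk : ∀ F, j (Ideal.Quotient.mk Y.I F) = j₀ F := fun F => rfl
  have hj : Function.Injective j := by
    rw [injective_iff_map_eq_zero]
    intro z hz
    obtain ⟨F, rfl⟩ := Ideal.Quotient.mk_surjective z
    rw [hjmk, hker] at hz
    exact Ideal.Quotient.eq_zero_iff_mem.2 hz
  have hjX : ∀ i, j (Ideal.Quotient.mk Y.I (X i)) = Polynomial.X * Polynomial.C (η i) := by
    intro i
    rw [hjmk]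
    exact aeval_X _ i
  have htrans : ∃ a : MvPolynomial (Fin (N + 1)) ℂ ⧸ Y.I, Transcendental ℂ a := by
    refine ⟨Ideal.Quotient.mk Y.I (X i₀), fun halg => ?_⟩
    have h1 := halg.algHom j
    rw [hjX] at h1
    have h2 := h1.algHom μ
    have h3 : μ (Polynomial.X * Polynomial.C (η i₀)) = Polynomial.X * Polynomial.C (ξ i₀) := by
      change Polynomial.map _ _ = _
      rw [Polynomial.map_mul, Polynomial.map_X, Polynomial.map_C]
      rfl
    rw [h3] at h2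
    have h4 : IsAlgebraic K (Polynomial.X * Polynomial.C (ξ i₀)) := h2.tower_top K
    have h5 := h4.mul (isAlgebraic_algebraMap (R := K) (A := Polynomial K) (ξ i₀)⁻¹)
    rw [Polynomial.algebraMap_eq, mul_assoc, ← Polynomial.C_mul, mul_inv_cancel₀ hi₀,
      Polynomial.C_1, mul_one] at h5
    exact Polynomial.transcendental_X K h5
  have hall : ∀ w : Y.Pts ℂ, cls w = hc Y η φ₀ := by
    intro w
    refine move j hj (D := Polynomial.C h₀ * Polynomial.X) (mul_ne_zero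
      (Polynomial.C_ne_zero.2 hh₀0) Polynomial.X_ne_zero) htrans _ ?_ w
    intro l hl p hp
    let φ : B →ₐ[ℂ] ℂ := l.comp (Polynomial.CAlgHom)
    rw [map_mul] at hl
    have hφ : φ h₀ ≠ 0 := left_ne_zero_of_mul hl
    rw [← hgood φ φ₀ hφ hφ₀]
    obtain ⟨h1, h2⟩ := hasCls_hc (η := η) (φ := φ) (hmem φ hφ)
    rw [← h2]
    symm
    apply cls_eq_of_smul (c := l Polynomial.X)
    funext i
    rw [hp, hjX, map_mul]
    rfl
  intro a b
  rw [hall a, hall b]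

end Pool.Agent.J4H42.LC
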